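import Mathlib
import Pool.Agent.U591.AM.Stm

/-!
# Package Z of project AM (helper591): merging of two systems of four queues
-/

set_option autoImplicit false

namespace Pool.Agent.U933.AM.Z

open Pool.Agent.U591.AM

variable {J : Type} [DecidableEq J]

/-- the conditions of `ZOK`, with all elements `U`, active ones `A` -/
structure ZO (c : J → ZMod 4) (R : J → J → Prop) (s f : J → ℚ) (U A : Finset J) : Prop where
  z1 : ∀ b ∈ U, b ∉ A → ∀ a ∈ A, c a = c b → R a b → f b < f a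
  z2 : ∀ e ∈ A, ∀ e' ∈ A, ∀ x ∈ U, c e = c e' → c e = c x + 1 → R e e' → R e x →
    s e < f x → f x < s e' → f e < f e'
  z3 : ∀ e0 ∈ A, ∀ e1 ∈ A, ∀ e2 ∈ A, ∀ e3 ∈ A, c e1 = c e0 + 1 → c e2 = c e1 + 1 → c e3 = c e2 + 1 →
    R e0 e1 → R e0 e2 → R e0 e3 → ¬ (f e0 < s e1 ∧ f e1 < s e2 ∧ f e2 < s e3 ∧ f e3 < s e0)
  z4 : ∀ e1 ∈ A, ∀ e2 ∈ A, ∀ e3 ∈ A, ∀ e4 ∈ A, c e2 = c e1 → c e3 = c e1 → c e4 = c e1 →
    R e1 e2 → R e1 e3 → R e1 e4 →
    ¬ (f e1 < f e2 ∧ f e2 < f e3 ∧ f e3 < f e4 ∧ s e2 < s e4 ∧ s e4 < s e1 ∧ s e1 < s e3)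
  z5 : ∀ e1 ∈ A, ∀ e2 ∈ A, ∀ e3 ∈ A, ∀ p ∈ A, c e2 = c e1 → c e3 = c e1 → c p = c e1 + 1 →
    R e1 e2 → R e1 e3 → R e1 p →
    ¬ (f e1 < s p ∧ s p < f e2 ∧ f e2 < f e3 ∧ s e3 < s e1 ∧ s e1 < s e2)

structure Hyp (c : J → ZMod 4) (side : J → Bool) (s f : J → ℚ) (U A : Finset J) (pos : J → ℚ) :
    Prop where
  sub : A ⊆ U
  h1 : ∀ e ∈ A, ∀ e' ∈ A, side e = side e' → c e = c e' → s e = s e' → e = e'
  h2 : ∀ x ∈ U, ∀ x' ∈ U, side x = side x' → c x = c x' → f x = f x' → x = x'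
  h3 : ∀ e ∈ A, ∀ x ∈ U, side e = side x → c e = c x + 1 → s e ≠ f x
  h4 : ∀ b ∈ U, b ∉ A → ∀ b' ∈ U, b' ∉ A → c b = c b' → pos b = pos b' → b = b'
  h5 : ∀ b ∈ U, b ∉ A → ∀ b' ∈ U, b' ∉ A → side b = side b' → c b = c b' →
    (f b < f b' ↔ pos b < pos b')
  h6 : ZO c (fun u v => side u = side v) s f U A

structure Out (c : J → ZMod 4) (side : J → Bool) (s f : J → ℚ) (U A : Finset J) (pos S F : J → ℚ) :
    Prop where
  o0 : ∀ b ∈ U, b ∉ A → F b = pos b
  o1 : ∀ e ∈ A, ∀ e' ∈ A, side e = side e' → c e = c e' → (s e < s e' ↔ S e < S e')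
  o2 : ∀ x ∈ U, ∀ x' ∈ U, side x = side x' → c x = c x' → (f x < f x' ↔ F x < F x')
  o3 : ∀ e ∈ A, ∀ x ∈ U, side e = side x → c e = c x + 1 → (f x < s e ↔ F x < S e)
  o4 : ∀ e ∈ A, ∀ e' ∈ A, c e = c e' → S e = S e' → e = e'
  o5 : ∀ x ∈ U, ∀ x' ∈ U, c x = c x' → F x = F x' → x = x'
  o6 : ∀ e ∈ A, ∀ x ∈ U, c e = c x + 1 → S e ≠ F x
  o7 : ∀ e ∈ A, ∀ x ∈ U, c e = c x + 1 → side x ≠ side e → F x < S e →
    ∃ x' ∈ U, c x' = c x ∧ side x' = side e ∧ F x < F x' ∧ F x' < S e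
  o8 : ∀ e ∈ A, ∀ e' ∈ A, side e ≠ side e' → c e = c e' → (S e < S e' ↔ F e < F e')
  o9 : ZO c (fun _ _ => True) S F U A
  init : ∀ e1 ∈ A, ∀ e2 ∈ A, c e1 = c e2 → side e1 = false → side e2 = true →
    (∀ x ∈ U, c e1 = c x + 1 → ¬ F x < S e1) → (∀ x ∈ U, c e1 = c x + 1 → ¬ F x < S e2) →
    S e1 < S e2

/-- first leaver of its side and class, no active cutter of its side before its entry -/
def Avail (c : J → ZMod 4) (side : J → Bool) (s f : J → ℚ) (A : Finset J) (e : J) : Prop :=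
  (∀ a ∈ A, side a = side e → c a = c e → f e ≤ f a) ∧
    ∀ y ∈ A, side y = side e → c e = c y + 1 → ¬ f y < s e

variable {c : J → ZMod 4} {side : J → Bool} {s f : J → ℚ} {U A : Finset J} {pos : J → ℚ}

lemma zmod_ne (k : ZMod 4) : k ≠ k + 1 := by
  revert k; decide

lemma exists_min {a : J} (ha : a ∈ A) : ∃ m ∈ A, side m = side a ∧ c m = c a ∧
    ∀ a' ∈ A, side a' = side a → c a' = c a → f m ≤ f a' := by
  classical
  obtain ⟨m, hm, hmin⟩ := Finset.exists_min_image
    (A.filter fun a' => side a' = side a ∧ c a' = c a) f ⟨a, by simp [ha]⟩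
  rw [Finset.mem_filter] at hm
  exact ⟨m, hm.1, hm.2.1, hm.2.2, fun a' h1 h2 h3 => hmin a' (Finset.mem_filter.2 ⟨h1, h2, h3⟩)⟩

lemma exists_avail (hy : Hyp c side s f U A pos) (hA : A.Nonempty) :
    ∃ e ∈ A, Avail c side s f A e := by
  by_contra hcon
  push Not at hcon
  have key : ∀ m ∈ A, (∀ a' ∈ A, side a' = side m → c a' = c m → f m ≤ f a') →
      ∃ m' ∈ A, side m' = side m ∧ c m = c m' + 1 ∧ f m' < s m ∧
        ∀ a' ∈ A, side a' = side m' → c a' = c m' → f m' ≤ f a' := by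
    intro m hm hmin
    have h1 := hcon m hm
    unfold Avail at h1
    push Not at h1
    obtain ⟨y, hy1, hy2, hy3, hy4⟩ := h1 hmin
    obtain ⟨m', hm', h2, h3, h4⟩ := exists_min (c := c) (side := side) (f := f) hy1
    refine ⟨m', hm', h2.trans hy2, by rw [h3, hy3], lt_of_le_of_lt (h4 y hy1 rfl rfl) hy4, ?_⟩
    intro a' ha' hs hc
    exact h4 a' ha' (hs.trans h2) (hc.trans h3)
  obtain ⟨a0, ha0⟩ := hA
  obtain ⟨m0, hm0, hs0, hc0, hmin0⟩ := exists_min (c := c) (side := side) (f := f) ha0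
  have hmin0' : ∀ a' ∈ A, side a' = side m0 → c a' = c m0 → f m0 ≤ f a' := fun a' h1 h2 h3 =>
    hmin0 a' h1 (h2.trans hs0) (h3.trans hc0)
  obtain ⟨m1, hm1, hs1, hc1, hl1, hmin1⟩ := key m0 hm0 hmin0'
  obtain ⟨m2, hm2, hs2, hc2, hl2, hmin2⟩ := key m1 hm1 hmin1
  obtain ⟨m3, hm3, hs3, hc3, hl3, hmin3⟩ := key m2 hm2 hmin2
  obtain ⟨m4, hm4, hs4, hc4, hl4, hmin4⟩ := key m3 hm3 hmin3
  have h4 : c m4 = c m0 := by
    have e4 : (1 + 1 + 1 + 1 : ZMod 4) = 0 := by decide
    rw [hc1, hc2, hc3, hc4]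
    linear_combination -e4
  have h5 : f m0 < s m3 := lt_of_le_of_lt
    (hmin0' m4 hm4 (hs4.trans (hs3.trans (hs2.trans hs1))) h4) hl4
  refine hy.h6.z3 m0 hm0 m3 hm3 m2 hm2 m1 hm1 ?_ hc3 hc2 ?_ ?_ ?_ ⟨h5, hl3, hl2, hl1⟩
  · rw [hc4, h4]
  · exact (hs3.trans (hs2.trans hs1)).symm
  · exact (hs2.trans hs1).symm
  · exact hs1.symm

/-- the choice among the available elements -/
def Choice (c : J → ZMod 4) (side : J → Bool) (s f : J → ℚ) (U A : Finset J) (pos : J → ℚ)
    (e : J) : Prop :=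
  ∀ e' ∈ A, Avail c side s f A e' → c e' = c e → side e' ≠ side e →
    (∀ x ∈ U, x ∉ A → side x = side e → c e = c x + 1 → f x < s e →
      ∃ x' ∈ U, x' ∉ A ∧ side x' = side e' ∧ c e' = c x' + 1 ∧ f x' < s e' ∧ pos x < pos x') ∧
    ((∀ x ∈ U, x ∉ A → side x = side e → c e = c x + 1 → ¬ f x < s e) →
      (∀ x ∈ U, x ∉ A → side x = side e' → c e' = c x + 1 → ¬ f x < s e') → side e = false)

lemma avail_unique (hy : Hyp c side s f U A pos) {p q : J} (hp : p ∈ A) (hq : q ∈ A)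
    (ap : Avail c side s f A p) (aq : Avail c side s f A q) (hs : side p = side q)
    (hc : c p = c q) : p = q :=
  hy.h2 p (hy.sub hp) q (hy.sub hq) hs hc
    (le_antisymm (ap.1 q hq hs.symm hc.symm) (aq.1 p hp hs hc))

lemma exists_choice (hy : Hyp c side s f U A pos) (hA : A.Nonempty) :
    ∃ e ∈ A, Avail c side s f A e ∧ Choice c side s f U A pos e := by
  obtain ⟨e0, he0, av0⟩ := exists_avail hy hA
  by_cases h : ∃ e1 ∈ A, Avail c side s f A e1 ∧ c e1 = c e0 ∧ side e1 ≠ side e0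
  swap
  · push Not at h
    exact ⟨e0, he0, av0, fun e' he' av' hc' hs' => absurd (h e' he' av' hc') hs'⟩
  obtain ⟨e1, he1, av1, hc1, hs1⟩ := h
  obtain ⟨p, q, hp, hq, avp, avq, hpq, sp, sq⟩ : ∃ p q, p ∈ A ∧ q ∈ A ∧ Avail c side s f A p ∧
      Avail c side s f A q ∧ c p = c q ∧ side p = false ∧ side q = true := by
    cases h0 : side e0
    · cases h1 : side e1
      · exact absurd (h1.trans h0.symm) hs1
      · exact ⟨e0, e1, he0, he1, av0, av1, hc1.symm, h0, h1⟩
    · cases h1 : side e1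
      · exact ⟨e1, e0, he1, he0, av1, av0, hc1, h1, h0⟩
      · exact absurd (h1.trans h0.symm) hs1
  by_cases ha : ∀ x ∈ U, x ∉ A → side x = side p → c p = c x + 1 → f x < s p →
      ∃ x' ∈ U, x' ∉ A ∧ side x' = side q ∧ c q = c x' + 1 ∧ f x' < s q ∧ pos x < pos x'
  · refine ⟨p, hp, avp, fun e' he' av' hc' hs' => ?_⟩
    have h1 : e' = q := by
      apply avail_unique hy he' hq av' avq _ (hc'.trans hpq)
      cases h2 : side e'
      · exact absurd (h2.trans sp.symm) hs'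
      · exact sq.symm
    subst h1
    exact ⟨ha, fun _ _ => sp⟩
  · push Not at ha
    obtain ⟨x, hxU, hxA, hxs, hxc, hxf, hx⟩ := ha
    refine ⟨q, hq, avq, fun e' he' av' hc' hs' => ?_⟩
    have h1 : e' = p := by
      apply avail_unique hy he' hp av' avp _ (hc'.trans hpq.symm)
      cases h2 : side e'
      · exact sp.symm
      · exact absurd (h2.trans sq.symm) hs'
    subst h1
    refine ⟨fun x' hxU' hxA' hxs' hxc' hxf' => ⟨x, hxU, hxA, hxs, hxc, hxf, ?_⟩, fun _ h2 => ?_⟩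
    · rcases lt_or_eq_of_le (hx x' hxU' hxA' hxs' hxc' hxf') with h3 | h3
      · exact h3
      · exfalso
        have hcc : c x' = c x := by
          have : c x' + 1 = c x + 1 := by rw [← hxc', ← hxc, hpq]
          exact add_right_cancel this
        have h4 := hy.h4 x' hxU' hxA' x hxU hxA hcc h3
        rw [h4, hxs] at hxs'
        exact hs' hxs'
    · exact absurd hxf (h2 x hxU hxA hxs hxc)

lemma mem_erase_not {e b : J} (hb : b ∉ A.erase e) : b = e ∨ b ∉ A := by
  by_cases h : b = e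
  · exact Or.inl h
  · exact Or.inr fun h2 => hb (Finset.mem_erase.2 ⟨h, h2⟩)

lemma hyp_erase (hy : Hyp c side s f U A pos) {e : J} (he : e ∈ A) (av : Avail c side s f A e)
    {M : ℚ} (hM : ∀ b ∈ U, pos b < M) :
    Hyp c side s f U (A.erase e) (Function.update pos e M) := by
  have hmem : ∀ {a}, a ∈ A.erase e → a ∈ A := fun h => Finset.mem_of_mem_erase h
  have hpe : Function.update pos e M e = M := Function.update_self ..
  have hpn : ∀ b, b ≠ e → Function.update pos e M b = pos b := fun b hb =>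
    Function.update_of_ne hb ..
  refine ⟨fun a ha => hy.sub (hmem ha), fun a ha b hb => hy.h1 a (hmem ha) b (hmem hb), hy.h2,
    fun a ha => hy.h3 a (hmem ha), ?_, ?_, ?_⟩
  · intro b hb hb1 b' hb' hb1' hc hp
    by_cases h1 : b = e
    · by_cases h2 : b' = e
      · rw [h1, h2]
      · rw [h1, hpe, hpn b' h2] at hp
        exact absurd hp (hM b' hb').ne'
    · by_cases h2 : b' = e
      · rw [h2, hpe, hpn b h1] at hp
        exact absurd hp (hM b hb).ne
      · rw [hpn b h1, hpn b' h2] at hp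
        exact hy.h4 b hb ((mem_erase_not hb1).resolve_left h1) b' hb'
          ((mem_erase_not hb1').resolve_left h2) hc hp
  · intro b hb hb1 b' hb' hb1' hs hc
    by_cases h1 : b = e
    · by_cases h2 : b' = e
      · rw [h1, h2]; simp
      · rw [h1, hpe, hpn b' h2]
        have h3 : f b' < f e := hy.h6.z1 b' hb' ((mem_erase_not hb1').resolve_left h2) e he
          (by rw [← h1, hc]) (by rw [← h1, hs])
        exact ⟨fun h => absurd h h3.not_gt, fun h => absurd h (hM b' hb').not_gt⟩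
    · by_cases h2 : b' = e
      · rw [h2, hpe, hpn b h1]
        have h3 : f b < f e := hy.h6.z1 b hb ((mem_erase_not hb1).resolve_left h1) e he
          (by rw [← h2, hc]) (by rw [← h2, hs])
        exact ⟨fun _ => hM b hb, fun _ => h3⟩
      · rw [hpn b h1, hpn b' h2]
        exact hy.h5 b hb ((mem_erase_not hb1).resolve_left h1) b' hb'
          ((mem_erase_not hb1').resolve_left h2) hs hc
  · refine ⟨?_, fun a ha b hb => hy.h6.z2 a (hmem ha) b (hmem hb),
      fun a ha b hb c hc d hd => hy.h6.z3 a (hmem ha) b (hmem hb) c (hmem hc) d (hmem hd),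
      fun a ha b hb c hc d hd => hy.h6.z4 a (hmem ha) b (hmem hb) c (hmem hc) d (hmem hd),
      fun a ha b hb c hc d hd => hy.h6.z5 a (hmem ha) b (hmem hb) c (hmem hc) d (hmem hd)⟩
    intro b hb hb1 a ha hc hs
    rcases mem_erase_not hb1 with h1 | h1
    · subst h1
      have h2 := av.1 a (hmem ha) hs hc
      refine lt_of_le_of_ne h2 fun h3 => ?_
      have h4 := hy.h2 b hb a (hy.sub (hmem ha)) hs.symm hc.symm h3
      exact (Finset.ne_of_mem_erase ha) h4.symm
    · exact hy.h6.z1 b hb h1 a (hmem ha) hc hs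

lemma exists_cut (P : ℚ → Prop) (hP : ∀ t t', P t → t' ≤ t → P t') (Ev : Finset ℚ) :
    ∃ v : ℚ, (∀ t ∈ Ev, P t → t < v) ∧ ∀ t ∈ Ev, ¬ P t → v < t := by
  classical
  obtain ⟨v, h1, h2⟩ := Order.exists_between_finsets (Ev.filter P) (Ev.filter fun t => ¬ P t)
    (fun x hx y hy => by
      rw [Finset.mem_filter] at hx hy
      by_contra h
      exact hy.2 (hP x y hx.2 (not_lt.1 h)))
  exact ⟨v, fun t ht hPt => h1 t (Finset.mem_filter.2 ⟨ht, hPt⟩),
    fun t ht hPt => h2 t (Finset.mem_filter.2 ⟨ht, hPt⟩)⟩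

lemma first_leaver (hy : Hyp c side s f U A pos) {e2 : J} (he2 : e2 ∈ A) :
    ∃ e' ∈ A, side e' = side e2 ∧ c e' = c e2 ∧
      (∀ a' ∈ A, side a' = side e' → c a' = c e' → f e' ≤ f a') ∧
      ∀ x ∈ U, side x = side e' → c e' = c x + 1 → f x < s e' → f x < s e2 := by
  obtain ⟨e', he', h1, h2, h3⟩ := exists_min (c := c) (side := side) (f := f) he2
  refine ⟨e', he', h1, h2, fun a' ha hs hc => h3 a' ha (hs.trans h1) (hc.trans h2), ?_⟩
  intro x hx hs hc hlt
  by_contra hn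
  have h4 : s e2 < f x := lt_of_le_of_ne (not_lt.1 hn)
    (hy.h3 e2 he2 x hx (hs.trans h1).symm (h2.symm.trans hc))
  exact absurd (hy.h6.z2 e2 he2 e' he' x hx h2.symm (h2.symm.trans hc) h1.symm
    (hs.trans h1).symm h4 hlt) (h3 e2 he2 rfl rfl).not_gt

lemma step (hy : Hyp c side s f U A pos) {e : J} (he : e ∈ A) (av : Avail c side s f A e)
    (ch : Choice c side s f U A pos e) {M : ℚ} (hM : ∀ b ∈ U, pos b < M) {S1 F1 : J → ℚ}
    (o : Out c side s f U (A.erase e) (Function.update pos e M) S1 F1) :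
    ∃ S F, Out c side s f U A pos S F := by
  have heU : e ∈ U := hy.sub he
  have hmem : ∀ {a}, a ∈ A.erase e → a ∈ A := fun h => Finset.mem_of_mem_erase h
  have hne : ∀ {a}, a ∈ A.erase e → a ≠ e := fun h => Finset.ne_of_mem_erase h
  have her : ∀ {a}, a ∈ A → a ≠ e → a ∈ A.erase e := fun h h' => Finset.mem_erase.2 ⟨h', h⟩
  have hnot : ∀ {b}, b ∉ A → b ∉ A.erase e := fun h h' => h (hmem h')
  have hee : e ∉ A.erase e := Finset.notMem_erase e A
  have hFe : F1 e = M := by rw [o.o0 e heU hee, Function.update_self]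
  have hFb : ∀ b ∈ U, b ∉ A → F1 b = pos b := by
    intro b hb hbA
    have : b ≠ e := fun h => hbA (h ▸ he)
    rw [o.o0 b hb (hnot hbA), Function.update_of_ne this]
  have hFmin : ∀ a ∈ A.erase e, c a = c e → F1 e < F1 a := fun a ha hc =>
    o.o9.z1 e heU hee a ha hc trivial
  -- own early cutters are sources
  have hsrc : ∀ x, side x = side e → c e = c x + 1 → f x < s e → x ∉ A := fun x hs hc hl hx =>
    av.2 x hx hs hc hl
  -- the place of the entry of `e`
  set P : ℚ → Prop := fun t =>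
    (∃ e3 ∈ A.erase e, c e3 = c e ∧ side e3 = side e ∧ s e3 < s e ∧ t ≤ S1 e3) ∨
    (∃ x ∈ U, c e = c x + 1 ∧ side x = side e ∧ f x < s e ∧ t ≤ F1 x) with hPdef
  obtain ⟨v, hv1, hv2⟩ := exists_cut P (by
    rintro t t' (⟨a, h1, h2, h3, h4, h5⟩ | ⟨a, h1, h2, h3, h4, h5⟩) htt
    · exact Or.inl ⟨a, h1, h2, h3, h4, htt.trans h5⟩
    · exact Or.inr ⟨a, h1, h2, h3, h4, htt.trans h5⟩) ((A.erase e).image S1 ∪ U.image F1)
  have vS1 : ∀ a ∈ A.erase e, P (S1 a) → S1 a < v := fun a ha =>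
    hv1 _ (Finset.mem_union_left _ (Finset.mem_image_of_mem _ ha))
  have vS2 : ∀ a ∈ A.erase e, ¬ P (S1 a) → v < S1 a := fun a ha =>
    hv2 _ (Finset.mem_union_left _ (Finset.mem_image_of_mem _ ha))
  have vF1 : ∀ a ∈ U, P (F1 a) → F1 a < v := fun a ha =>
    hv1 _ (Finset.mem_union_right _ (Finset.mem_image_of_mem _ ha))
  have vF2 : ∀ a ∈ U, ¬ P (F1 a) → v < F1 a := fun a ha =>
    hv2 _ (Finset.mem_union_right _ (Finset.mem_image_of_mem _ ha))
  have vSP : ∀ a ∈ A.erase e, S1 a < v → P (S1 a) := fun a ha h => by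
    by_contra h1
    exact absurd (vS2 a ha h1) h.not_gt
  have vFP : ∀ a ∈ U, F1 a < v → P (F1 a) := fun a ha h => by
    by_contra h1
    exact absurd (vF2 a ha h1) h.not_gt
  have vSne : ∀ a ∈ A.erase e, S1 a ≠ v := fun a ha h => by
    by_cases h1 : P (S1 a)
    · exact (vS1 a ha h1).ne h
    · exact (vS2 a ha h1).ne' h
  have vFne : ∀ a ∈ U, F1 a ≠ v := fun a ha h => by
    by_cases h1 : P (F1 a)
    · exact (vF1 a ha h1).ne h
    · exact (vF2 a ha h1).ne' h
  -- own events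
  have Ka : ∀ e2 ∈ A.erase e, side e2 = side e → c e2 = c e → (s e2 < s e ↔ S1 e2 < v) := by
    intro e2 h2 hs hc
    constructor
    · intro hl
      exact vS1 e2 h2 (Or.inl ⟨e2, h2, hc, hs, hl, le_rfl⟩)
    · intro hl
      rcases vSP e2 h2 hl with ⟨e3, h3, hc3, hs3, hl3, hle⟩ | ⟨x, hx, hcx, hsx, hlx, hle⟩
      · have h4 : ¬ s e3 < s e2 := fun h =>
          absurd ((o.o1 e3 h3 e2 h2 (hs3.trans hs.symm) (hc3.trans hc.symm)).1 h) hle.not_gt
        exact lt_of_le_of_lt (not_lt.1 h4) hl3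
      · have h4 : ¬ f x < s e2 := fun h =>
          absurd ((o.o3 e2 h2 x hx (hs.trans hsx.symm) (hc.trans hcx)).1 h) hle.not_gt
        exact lt_of_le_of_lt (not_lt.1 h4) hlx
  have Kb : ∀ x ∈ U, side x = side e → c e = c x + 1 → (f x < s e ↔ F1 x < v) := by
    intro x hx hs hc
    constructor
    · intro hl
      exact vF1 x hx (Or.inr ⟨x, hx, hc, hs, hl, le_rfl⟩)
    · intro hl
      rcases vFP x hx hl with ⟨e3, h3, hc3, hs3, hl3, hle⟩ | ⟨x', hx', hcx, hsx, hlx, hle⟩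
      · have h4 : F1 x < S1 e3 := lt_of_le_of_ne hle (o.o6 e3 h3 x hx (hc3.trans hc)).symm
        exact ((o.o3 e3 h3 x hx (hs3.trans hs.symm) (hc3.trans hc)).2 h4).trans hl3
      · have hcc : c x' = c x := add_right_cancel (hcx.symm.trans hc)
        have h4 : ¬ f x' < f x := fun h =>
          absurd ((o.o2 x' hx' x hx (hsx.trans hs.symm) hcc).1 h) hle.not_gt
        exact lt_of_le_of_lt (not_lt.1 h4) hlx
  -- `e` is early
  have K1 : ∀ x ∈ U, c e = c x + 1 → side x ≠ side e → F1 x < v →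
      ∃ x' ∈ U, c x' = c x ∧ side x' = side e ∧ F1 x < F1 x' ∧ F1 x' < v := by
    intro x hx hc hs hl
    rcases vFP x hx hl with ⟨e3, h3, hc3, hs3, hl3, hle⟩ | ⟨x', hx', hcx, hsx, hlx, hle⟩
    · have h4 : F1 x < S1 e3 := lt_of_le_of_ne hle (o.o6 e3 h3 x hx (hc3.trans hc)).symm
      obtain ⟨x', hx', h5, h6, h7, h8⟩ := o.o7 e3 h3 x hx (hc3.trans hc)
        (fun h => hs (h.trans hs3)) h4
      exact ⟨x', hx', h5, h6.trans hs3, h7, h8.trans ((Ka e3 h3 hs3 hc3).1 hl3)⟩
    · have hcc : c x' = c x := add_right_cancel (hcx.symm.trans hc)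
      refine ⟨x', hx', hcc, hsx, lt_of_le_of_ne hle fun h => ?_, (Kb x' hx' hsx hcx).1 hlx⟩
      have := o.o5 x hx x' hx' hcc.symm h
      rw [this] at hs
      exact hs hsx
  -- the elements of the other side enter later
  have K2i : ∀ e2 ∈ A.erase e, c e2 = c e → side e2 ≠ side e → ∀ x ∈ U, side x = side e →
      c e = c x + 1 → f x < s e → ¬ S1 e2 < F1 x := by
    intro e2 h2 hc2 hs2 x hx hsx hcx hlx hlt
    have hxA := hsrc x hsx hcx hlx
    obtain ⟨e', he', hs', hc', hmin, hfl⟩ := first_leaver hy (hmem h2)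
    have av' : Avail c side s f A e' := by
      refine ⟨hmin, fun y hy1 hsy hcy hly => ?_⟩
      have h3 := hfl y (hy.sub hy1) hsy hcy hly
      have hyn : y ≠ e := by
        rintro rfl
        exact hs2 (hs'.symm.trans hsy.symm)
      have h4 := (o.o3 e2 h2 y (hy.sub hy1) (hs'.symm.trans hsy.symm) (hc'.symm.trans hcy)).1 h3
      have h5 := o.o9.z1 x hx (hnot hxA) y (her hy1 hyn)
        (add_right_cancel (hcy.symm.trans (hc'.trans (hc2.trans hcx)))) trivial
      exact absurd (h5.trans h4) hlt.not_gt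
    obtain ⟨x', hx', hx'A, hsx', hcx', hlx', hpos⟩ := (ch e' he' av' (hc'.trans hc2)
      (fun h => hs2 (hs'.symm.trans h))).1 x hx hxA hsx hcx hlx
    have h3 := hfl x' hx' hsx' hcx' hlx'
    have h4 := (o.o3 e2 h2 x' hx' (hs'.symm.trans hsx'.symm) (hc'.symm.trans hcx')).1 h3
    rw [hFb x' hx' hx'A] at h4
    rw [hFb x hx hxA] at hlt
    exact absurd (hlt.trans hpos) h4.not_gt
  have K2b : ∀ e2 ∈ A.erase e, c e2 = c e → side e2 ≠ side e →
      (∀ x ∈ U, side x = side e → c e = c x + 1 → ¬ f x < s e) →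
      (∀ x ∈ U, side x = side e2 → c e2 = c x + 1 → ¬ f x < s e2) → side e = false := by
    intro e2 h2 hc2 hs2 hn1 hn2
    obtain ⟨e', he', hs', hc', hmin, hfl⟩ := first_leaver hy (hmem h2)
    have hn3 : ∀ x ∈ U, side x = side e' → c e' = c x + 1 → ¬ f x < s e' := by
      intro x hx hsx hcx hlx
      exact hn2 x hx (hsx.trans hs') (hc'.symm.trans hcx) (hfl x hx hsx hcx hlx)
    have av' : Avail c side s f A e' :=
      ⟨hmin, fun y hy1 hsy hcy hly => hn3 y (hy.sub hy1) hsy hcy hly⟩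
    exact (ch e' he' av' (hc'.trans hc2) (fun h => hs2 (hs'.symm.trans h))).2
      (fun x hx _ => hn1 x hx) (fun x hx _ => hn3 x hx)
  have K2 : ∀ e2 ∈ A.erase e, c e2 = c e → side e2 ≠ side e → v < S1 e2 := by
    intro e2 h2 hc2 hs2
    refine vS2 e2 h2 ?_
    rintro (⟨e3, h3, hc3, hs3, hl3, hle⟩ | ⟨x, hx, hcx, hsx, hlx, hle⟩)
    swap
    · exact K2i e2 h2 hc2 hs2 x hx hsx hcx hlx
        (lt_of_le_of_ne hle (o.o6 e2 h2 x hx (hc2.trans hcx)))
    have hlt : S1 e2 < S1 e3 := by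
      refine lt_of_le_of_ne hle fun h => ?_
      have := o.o4 e2 h2 e3 h3 (hc2.trans hc3.symm) h
      rw [this] at hs2
      exact hs2 hs3
    by_cases hex : ∃ x ∈ U, side x = side e ∧ c e = c x + 1 ∧ f x < s e
    · obtain ⟨x0, hx0, h0⟩ := hex
      classical
      obtain ⟨x, hx, hmax⟩ := Finset.exists_max_image
        (U.filter fun x => side x = side e ∧ c e = c x + 1 ∧ f x < s e) f
        ⟨x0, Finset.mem_filter.2 ⟨hx0, h0⟩⟩
      rw [Finset.mem_filter] at hx
      obtain ⟨hxU, hsx, hcx, hlx⟩ := hx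
      have h4 := K2i e2 h2 hc2 hs2 x hxU hsx hcx hlx
      have h5 : F1 x < S1 e2 := lt_of_le_of_ne (not_lt.1 h4) (o.o6 e2 h2 x hxU (hc2.trans hcx)).symm
      obtain ⟨x', hx', hc', hs', hl', hl''⟩ := o.o7 e2 h2 x hxU (hc2.trans hcx)
        (fun h => hs2 (h.symm.trans hsx)) h5
      obtain ⟨x'', hx'', hc'', hs'', hl3', hl4'⟩ := o.o7 e3 h3 x' hx'
        (by rw [hc3, hc', hcx]) (fun h => hs2 (hs'.symm.trans (h.trans hs3))) (hl''.trans hlt)
      have hcc : c x'' = c x := hc''.trans hc'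
      have hss : side x'' = side e := hs''.trans hs3
      have h6 : f x'' < s e3 := (o.o3 e3 h3 x'' hx'' hs''.symm (by rw [hcc, hc3, hcx])).2 hl4'
      have h7 := hmax x'' (Finset.mem_filter.2 ⟨hx'', hss, by rw [hcc, hcx], h6.trans hl3⟩)
      have h8 : f x < f x'' := (o.o2 x hxU x'' hx'' (hsx.trans hss.symm) hcc.symm).2
        (hl'.trans hl3')
      exact absurd h8 h7.not_gt
    · push Not at hex
      have hno3 : ∀ x ∈ U, c e3 = c x + 1 → ¬ F1 x < S1 e3 := by
        intro x hx hcx hlx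
        by_cases hsx : side x = side e
        · have h6 : f x < s e3 := (o.o3 e3 h3 x hx (hs3.trans hsx.symm) hcx).2 hlx
          exact absurd (h6.trans hl3) (hex x hx hsx (hc3.symm.trans hcx)).not_gt
        · obtain ⟨x', hx', hc', hs', hl', hl''⟩ := o.o7 e3 h3 x hx hcx
            (fun h => hsx (h.trans hs3)) hlx
          have h6 : f x' < s e3 := (o.o3 e3 h3 x' hx' hs'.symm (by rw [hc', hcx])).2 hl''
          exact absurd (h6.trans hl3) (hex x' hx' (hs'.trans hs3)
            (by rw [hc', ← hcx, hc3])).not_gt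
      have hno2 : ∀ x ∈ U, c e3 = c x + 1 → ¬ F1 x < S1 e2 := fun x hx hcx hlx =>
        hno3 x hx hcx (hlx.trans hlt)
      cases hse : side e
      · have h6 := o.init e3 h3 e2 h2 (hc3.trans hc2.symm) (hs3.trans hse) (by
          cases h : side e2
          · exact absurd (h.trans hse.symm) hs2
          · rfl) hno3 hno2
        exact absurd h6 hlt.not_gt
      · have h6 := K2b e2 h2 hc2 hs2 (fun x hx hsx hcx => (hex x hx hsx hcx).not_gt)
          (fun x hx hsx hcx hlx => hno2 x hx (by rw [hc3, ← hc2, hcx])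
            ((o.o3 e2 h2 x hx hsx.symm hcx).1 hlx))
        rw [hse] at h6
        exact absurd h6 (by decide)
  have K3 : ∀ y ∈ A, c e = c y + 1 → v < F1 y := by
    intro y hyA hcy
    refine vF2 y (hy.sub hyA) fun hP => ?_
    have hl := vF1 y (hy.sub hyA) hP
    have hyn : y ≠ e := by
      rintro rfl
      exact zmod_ne _ hcy
    by_cases hs : side y = side e
    · exact av.2 y hyA hs hcy ((Kb y (hy.sub hyA) hs hcy).2 hl)
    · obtain ⟨x', hx', hc', hs', hl', hl''⟩ := K1 y (hy.sub hyA) hcy hs hl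
      have hcx' : c e = c x' + 1 := by rw [hc', hcy]
      have hx'A := hsrc x' hs' hcx' ((Kb x' hx' hs' hcx').2 hl'')
      exact absurd (o.o9.z1 x' hx' (hnot hx'A) y (her hyA hyn) hc'.symm trivial) hl'.not_gt
  -- the new system
  have hSe : Function.update S1 e v e = v := Function.update_self ..
  have hSn : ∀ a, a ≠ e → Function.update S1 e v a = S1 a := fun a ha =>
    Function.update_of_ne ha ..
  refine ⟨Function.update S1 e v, F1, ?_⟩
  have O1 : ∀ e1 ∈ A, ∀ e2 ∈ A, side e1 = side e2 → c e1 = c e2 →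
      (s e1 < s e2 ↔ Function.update S1 e v e1 < Function.update S1 e v e2) := by
    intro e1 h1 e2 h2 hs hc
    by_cases n1 : e1 = e
    · by_cases n2 : e2 = e
      · rw [n1, n2]; simp
      · rw [n1, hSe, hSn e2 n2]
        have h3 := Ka e2 (her h2 n2) (hs.symm.trans (by rw [n1])) (hc.symm.trans (by rw [n1]))
        have h4 : s e ≠ s e2 := fun h => n2 (hy.h1 e he e2 h2 (by rw [← n1, hs])
          (by rw [← n1, hc]) h).symm
        have h5 := vSne e2 (her h2 n2)
        constructor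
        · intro h
          refine lt_of_le_of_ne (not_lt.1 fun h' => ?_) h5.symm
          exact absurd (h3.2 h') h.not_gt
        · intro h
          refine lt_of_le_of_ne (not_lt.1 fun h' => ?_) h4
          exact absurd (h3.1 h') h.not_gt
    · by_cases n2 : e2 = e
      · rw [n2, hSe, hSn e1 n1]
        exact Ka e1 (her h1 n1) (by rw [hs, n2]) (by rw [hc, n2])
      · rw [hSn e1 n1, hSn e2 n2]
        exact o.o1 e1 (her h1 n1) e2 (her h2 n2) hs hc
  have O3 : ∀ e1 ∈ A, ∀ x ∈ U, side e1 = side x → c e1 = c x + 1 →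
      (f x < s e1 ↔ F1 x < Function.update S1 e v e1) := by
    intro e1 h1 x hx hs hc
    by_cases n1 : e1 = e
    · rw [n1, hSe]
      rw [n1] at hs hc
      exact Kb x hx hs.symm hc
    · rw [hSn e1 n1]
      exact o.o3 e1 (her h1 n1) x hx hs hc
  have O6 : ∀ e1 ∈ A, ∀ x ∈ U, c e1 = c x + 1 → Function.update S1 e v e1 ≠ F1 x := by
    intro e1 h1 x hx hc
    by_cases n1 : e1 = e
    · rw [n1, hSe]
      exact (vFne x hx).symm
    · rw [hSn e1 n1]
      exact o.o6 e1 (her h1 n1) x hx hc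
  have O8 : ∀ e1 ∈ A, ∀ e2 ∈ A, side e1 ≠ side e2 → c e1 = c e2 →
      (Function.update S1 e v e1 < Function.update S1 e v e2 ↔ F1 e1 < F1 e2) := by
    intro e1 h1 e2 h2 hs hc
    by_cases n1 : e1 = e
    · by_cases n2 : e2 = e
      · exact absurd (by rw [n1, n2]) hs
      · rw [n1, hSe, hSn e2 n2]
        rw [n1] at hs hc
        exact ⟨fun _ => hFmin e2 (her h2 n2) hc.symm, fun _ => K2 e2 (her h2 n2) hc.symm hs.symm⟩
    · by_cases n2 : e2 = e
      · rw [n2, hSe, hSn e1 n1]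
        rw [n2] at hs hc
        exact ⟨fun h => absurd h (K2 e1 (her h1 n1) hc hs).not_gt,
          fun h => absurd h (hFmin e1 (her h1 n1) hc).not_gt⟩
      · rw [hSn e1 n1, hSn e2 n2]
        exact o.o8 e1 (her h1 n1) e2 (her h2 n2) hs hc
  have hfirst : ∀ a ∈ A, c a = c e → ¬ F1 a < F1 e := by
    intro a ha hc hl
    by_cases n : a = e
    · rw [n] at hl
      exact lt_irrefl _ hl
    · exact absurd hl (hFmin a (her ha n) hc).not_gt
  have s3 : ∀ e1 ∈ A, ∀ x ∈ U, side e1 = side x → c e1 = c x + 1 →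
      Function.update S1 e v e1 < F1 x → s e1 < f x := by
    intro e1 h1 x hx hs hc hl
    refine lt_of_le_of_ne (not_lt.1 fun h => ?_) (hy.h3 e1 h1 x hx hs hc)
    exact absurd ((O3 e1 h1 x hx hs hc).1 h) hl.not_gt
  refine ⟨hFb, O1, o.o2, O3, ?_, o.o5, O6, ?_, O8, ⟨?_, ?_, ?_, ?_, ?_⟩, ?_⟩
  · -- o4
    intro e1 h1 e2 h2 hc hS
    by_cases n1 : e1 = e
    · by_cases n2 : e2 = e
      · rw [n1, n2]
      · rw [n1, hSe, hSn e2 n2] at hS
        exact absurd hS.symm (vSne e2 (her h2 n2))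
    · by_cases n2 : e2 = e
      · rw [n2, hSe, hSn e1 n1] at hS
        exact absurd hS (vSne e1 (her h1 n1))
      · rw [hSn e1 n1, hSn e2 n2] at hS
        exact o.o4 e1 (her h1 n1) e2 (her h2 n2) hc hS
  · -- o7
    intro e1 h1 x hx hc hs hl
    by_cases n1 : e1 = e
    · rw [n1, hSe] at hl ⊢
      rw [n1] at hc hs
      exact K1 x hx hc hs hl
    · rw [hSn e1 n1] at hl ⊢
      exact o.o7 e1 (her h1 n1) x hx hc hs hl
  · -- z1
    intro b hb hbA a ha hc _
    by_cases n : a = e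
    · rw [n, hFb b hb hbA, hFe]
      exact hM b hb
    · exact o.o9.z1 b hb (hnot hbA) a (her ha n) hc trivial
  · -- z2
    intro e1 h1 e2 h2 x hx hc hcx _ _ hl1 hl2
    by_cases n2 : e2 = e
    · exfalso
      rw [n2, hSe] at hl2
      rw [n2] at hc
      have n1 : e1 ≠ e := by
        intro n1
        rw [n1, hSe] at hl1
        exact lt_asymm hl1 hl2
      rw [hSn e1 n1] at hl1
      have hs1 : side e1 = side e := by
        by_contra h
        exact absurd (hl1.trans hl2) (K2 e1 (her h1 n1) hc h).not_gt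
      have key : ∀ x' ∈ U, side x' = side e → c e1 = c x' + 1 → S1 e1 < F1 x' → F1 x' < v →
          False := by
        intro x' hx' hs' hc' hl1' hl2'
        have h3 : s e1 < f x' := s3 e1 h1 x' hx' (hs1.trans hs'.symm) hc'
          (by rw [hSn e1 n1]; exact hl1')
        have h4 : f x' < s e := (Kb x' hx' hs' (hc.symm.trans hc')).2 hl2'
        have h5 := hy.h6.z2 e1 h1 e he x' hx' hc hc' hs1 (hs1.trans hs'.symm) h3 h4
        exact absurd h5 (av.1 e1 h1 hs1 hc).not_gt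
      by_cases hsx : side x = side e
      · exact key x hx hsx hcx hl1 hl2
      · obtain ⟨x', hx', hc', hs', hl', hl''⟩ := K1 x hx (hc.symm.trans hcx) hsx hl2
        exact key x' hx' hs' (by rw [hc', hcx]) (hl1.trans hl') hl''
    · by_cases n1 : e1 = e
      · rw [n1]
        rw [n1] at hc
        exact hFmin e2 (her h2 n2) hc.symm
      · rw [hSn e1 n1] at hl1
        rw [hSn e2 n2] at hl2
        exact o.o9.z2 e1 (her h1 n1) e2 (her h2 n2) x hx hc hcx trivial trivial hl1 hl2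
  · -- z3
    rintro e0 h0 e1 h1 e2 h2 e3 h3 c1 c2 c3 _ _ _ ⟨l0, l1, l2, l3⟩
    have c0 : c e0 = c e3 + 1 := by
      have e4 : (1 + 1 + 1 + 1 : ZMod 4) = 0 := by decide
      rw [c3, c2, c1]
      linear_combination -e4
    by_cases n0 : e0 = e
    · rw [n0, hSe] at l3
      rw [n0] at c0
      exact absurd l3 (K3 e3 h3 c0).not_gt
    by_cases n1 : e1 = e
    · rw [n1, hSe] at l0
      rw [n1] at c1
      exact absurd l0 (K3 e0 h0 c1).not_gt
    by_cases n2 : e2 = e
    · rw [n2, hSe] at l1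
      rw [n2] at c2
      exact absurd l1 (K3 e1 h1 c2).not_gt
    by_cases n3 : e3 = e
    · rw [n3, hSe] at l2
      rw [n3] at c3
      exact absurd l2 (K3 e2 h2 c3).not_gt
    rw [hSn e1 n1] at l0
    rw [hSn e2 n2] at l1
    rw [hSn e3 n3] at l2
    rw [hSn e0 n0] at l3
    exact o.o9.z3 e0 (her h0 n0) e1 (her h1 n1) e2 (her h2 n2) e3 (her h3 n3) c1 c2 c3 trivial
      trivial trivial ⟨l0, l1, l2, l3⟩
  · -- z4
    rintro e1 h1 e2 h2 e3 h3 e4 h4 c2 c3 c4 _ _ _ ⟨l1, l2, l3, k1, k2, k3⟩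
    have n2 : e2 ≠ e := by
      intro n
      rw [n] at l1 c2
      exact hfirst e1 h1 c2.symm l1
    have n3 : e3 ≠ e := by
      intro n
      rw [n] at l2 c3
      exact hfirst e1 h1 c3.symm (l1.trans l2)
    have n4 : e4 ≠ e := by
      intro n
      rw [n] at l3 c4
      exact hfirst e1 h1 c4.symm ((l1.trans l2).trans l3)
    by_cases n1 : e1 = e
    · rw [n1] at c2 c3 c4 l1 k2 k3
      have hs2 : side e2 = side e := by
        by_contra h
        have := K2 e2 (her h2 n2) c2 h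
        rw [hSn e2 n2] at k1
        rw [hSe] at k2
        exact absurd (k1.trans k2) this.not_gt
      have hs4 : side e4 = side e := by
        by_contra h
        have := K2 e4 (her h4 n4) c4 h
        rw [hSn e4 n4, hSe] at k2
        exact absurd k2 this.not_gt
      have hs3 : side e3 = side e := by
        by_contra h
        have := (O8 e4 h4 e3 h3 (fun h' => h (h'.symm.trans hs4)) (c4.trans c3.symm)).1
          (k2.trans k3)
        exact absurd this l3.not_gt
      refine hy.h6.z4 e he e2 h2 e3 h3 e4 h4 c2 c3 c4 hs2.symm hs3.symm hs4.symm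
        ⟨(o.o2 e heU e2 (hy.sub h2) hs2.symm c2.symm).2 l1,
        (o.o2 e2 (hy.sub h2) e3 (hy.sub h3) (hs2.trans hs3.symm) (c2.trans c3.symm)).2 l2,
        (o.o2 e3 (hy.sub h3) e4 (hy.sub h4) (hs3.trans hs4.symm) (c3.trans c4.symm)).2 l3,
        (O1 e2 h2 e4 h4 (hs2.trans hs4.symm) (c2.trans c4.symm)).2 k1,
        (O1 e4 h4 e he hs4 c4).2 k2, (O1 e he e3 h3 hs3.symm c3.symm).2 k3⟩
    · rw [hSn e2 n2, hSn e4 n4] at k1
      rw [hSn e4 n4, hSn e1 n1] at k2
      rw [hSn e1 n1, hSn e3 n3] at k3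
      exact o.o9.z4 e1 (her h1 n1) e2 (her h2 n2) e3 (her h3 n3) e4 (her h4 n4) c2 c3 c4 trivial
        trivial trivial ⟨l1, l2, l3, k1, k2, k3⟩
  · -- z5
    rintro e1 h1 e2 h2 e3 h3 p hp c2 c3 cp _ _ _ ⟨l1, l2, l3, k1, k2⟩
    have np : p ≠ e := by
      intro n
      rw [n, hSe] at l1
      rw [n] at cp
      exact absurd l1 (K3 e1 h1 cp).not_gt
    have n2 : e2 ≠ e := by
      intro n
      rw [n] at l2 c2
      exact hfirst e1 h1 c2.symm (l1.trans l2)
    have n3 : e3 ≠ e := by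
      intro n
      rw [n] at l3 c3
      exact hfirst e1 h1 c3.symm ((l1.trans l2).trans l3)
    by_cases n1 : e1 = e
    · rw [n1] at c2 c3 cp l1 k1 k2
      have hs3 : side e3 = side e := by
        by_contra h
        have := K2 e3 (her h3 n3) c3 h
        rw [hSn e3 n3, hSe] at k1
        exact absurd k1 this.not_gt
      have hs2 : side e2 = side e := by
        by_contra h
        have := (O8 e3 h3 e2 h2 (fun h' => h (h'.symm.trans hs3)) (c3.trans c2.symm)).1
          (k1.trans k2)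
        exact absurd this l3.not_gt
      by_cases hsp : side p = side e
      · refine hy.h6.z5 e he e2 h2 e3 h3 p hp c2 c3 cp hs2.symm hs3.symm hsp.symm
          ⟨(O3 p hp e heU hsp cp).2 l1,
          s3 p hp e2 (hy.sub h2) (hsp.trans hs2.symm) (by rw [cp, c2]) l2,
          (o.o2 e2 (hy.sub h2) e3 (hy.sub h3) (hs2.trans hs3.symm) (c2.trans c3.symm)).2 l3,
          (O1 e3 h3 e he hs3 c3).2 k1, (O1 e he e2 h2 hs2.symm c2.symm).2 k2⟩
      · rw [hSn p np] at l1 l2
        obtain ⟨x', hx', hc', hs', hl', hl''⟩ := o.o7 p (her hp np) e heU cp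
          (fun h => hsp h.symm) l1
        have hx'A : x' ∈ A := by
          by_contra h
          rw [hFb x' hx' h, hFe] at hl'
          exact absurd hl' (hM x' hx').not_gt
        have n' : x' ≠ e := by
          intro h
          rw [h] at hl'
          exact lt_irrefl _ hl'
        have h5 := (O8 x' hx'A e3 h3 (fun h => hsp (hs'.symm.trans (h.trans hs3)))
          (hc'.trans c3.symm)).2 ((hl''.trans l2).trans l3)
        have h6 := h5.trans k1
        rw [hSn x' n', hSe] at h6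
        exact absurd h6 (K2 x' (her hx'A n') hc' (fun h => hsp (hs'.symm.trans h))).not_gt
    · rw [hSn p np] at l1 l2
      rw [hSn e3 n3, hSn e1 n1] at k1
      rw [hSn e1 n1, hSn e2 n2] at k2
      exact o.o9.z5 e1 (her h1 n1) e2 (her h2 n2) e3 (her h3 n3) p (her hp np) c2 c3 cp trivial
        trivial trivial ⟨l1, l2, l3, k1, k2⟩
  · -- init
    intro e1 h1 e2 h2 hc hs1 hs2 hn1 hn2
    by_cases n1 : e1 = e
    · have n2 : e2 ≠ e := by
        intro n2
        rw [n1] at hs1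
        rw [n2, hs1] at hs2
        exact absurd hs2 (by decide)
      rw [n1, hSe, hSn e2 n2]
      rw [n1] at hs1 hc
      refine K2 e2 (her h2 n2) hc.symm fun h => ?_
      rw [h, hs1] at hs2
      exact absurd hs2 (by decide)
    · by_cases n2 : e2 = e
      · exfalso
        rw [n2] at hc hs2
        have hss : side e1 ≠ side e := by
          rw [hs1, hs2]
          decide
        have h3 := K2b e1 (her h1 n1) hc hss
          (fun x hx hsx hcx hlx => hn2 x hx (hc.trans hcx) (by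
            rw [n2, hSe]
            exact (Kb x hx hsx hcx).1 hlx))
          (fun x hx hsx hcx hlx => hn1 x hx hcx ((O3 e1 h1 x hx hsx.symm hcx).1 hlx))
        rw [hs2] at h3
        exact absurd h3 (by decide)
      · rw [hSn e1 n1] at hn1 ⊢
        rw [hSn e2 n2] at hn2 ⊢
        exact o.init e1 (her h1 n1) e2 (her h2 n2) hc hs1 hs2 hn1 hn2

lemma main (n : ℕ) : ∀ (A : Finset J) (pos : J → ℚ), A.card = n →
    Hyp c side s f U A pos → ∃ S F, Out c side s f U A pos S F := by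
  induction n with
  | zero =>
    intro A pos hA hy
    rw [Finset.card_eq_zero] at hA
    subst hA
    have hn : ∀ x : J, x ∉ (∅ : Finset J) := fun x => Finset.notMem_empty x
    refine ⟨fun _ => 0, pos, fun _ _ _ => rfl, fun e he => absurd he (hn e), ?_,
      fun e he => absurd he (hn e), fun e he => absurd he (hn e), ?_,
      fun e he => absurd he (hn e), fun e he => absurd he (hn e), fun e he => absurd he (hn e),
      ⟨fun b _ _ a ha => absurd ha (hn a), fun e he => absurd he (hn e),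
        fun e he => absurd he (hn e), fun e he => absurd he (hn e),
        fun e he => absurd he (hn e)⟩, fun e he => absurd he (hn e)⟩
    · exact fun x hx x' hx' hs hc => hy.h5 x hx (hn x) x' hx' (hn x') hs hc
    · exact fun x hx x' hx' hc => hy.h4 x hx (hn x) x' hx' (hn x') hc
  | succ n ih =>
    intro A pos hA hy
    have hne : A.Nonempty := Finset.card_pos.1 (by omega)
    obtain ⟨e, he, av, ch⟩ := exists_choice hy hne
    obtain ⟨M, hM⟩ : ∃ M : ℚ, ∀ b ∈ U, pos b < M := by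
      obtain ⟨M, hM⟩ := (U.image pos).bddAbove
      refine ⟨M + 1, fun b hb => ?_⟩
      have := hM (Finset.mem_coe.2 (Finset.mem_image_of_mem pos hb))
      linarith
    obtain ⟨S1, F1, o⟩ := ih (A.erase e) (Function.update pos e M)
      (by rw [Finset.card_erase_of_mem he, hA]; rfl) (hyp_erase hy he av hM)
    exact step hy he av ch hM o

theorem t_Z : S_Z := by
  intro J _ c side s f A B pos hd h1 h2 h3 h4 h5 h6
  have hB : ∀ b ∈ A ∪ B, b ∉ A → b ∈ B := fun b hb hbA =>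
    (Finset.mem_union.1 hb).resolve_left hbA
  have hBA : ∀ b ∈ B, b ∉ A := fun b hb hbA => Finset.disjoint_left.1 hd hbA hb
  have hBU : ∀ b ∈ B, b ∈ A ∪ B := fun b hb => Finset.mem_union_right _ hb
  have hy : Hyp c side s f (A ∪ B) A pos :=
    ⟨Finset.subset_union_left, h1, h2, h3,
      fun b hb hbA b' hb' hbA' => h4 b (hB b hb hbA) b' (hB b' hb' hbA'),
      fun b hb hbA b' hb' hbA' => h5 b (hB b hb hbA) b' (hB b' hb' hbA'),
      ⟨fun b hb hbA => h6.z1 b (hB b hb hbA), h6.z2, h6.z3, h6.z4, h6.z5⟩⟩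
  obtain ⟨S, F, o⟩ := main A.card A pos rfl hy
  exact ⟨S, F, fun b hb => o.o0 b (hBU b hb) (hBA b hb), o.o1, o.o2, o.o3, o.o4, o.o5, o.o6, o.o7,
    o.o8, ⟨fun b hb => o.o9.z1 b (hBU b hb) (hBA b hb), o.o9.z2, o.o9.z3, o.o9.z4, o.o9.z5⟩⟩

end Pool.Agent.U933.AM.Z
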